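import Mathlib
import Pool.Prelude.Def_F_835ec2c3

/-!
# FOM: the function `F` of MP_fea5bd_nt is a genuine supremum
-/

set_option autoImplicit false

namespace Pool.Agent.FOM

open N4a4fba6b Real Finset
open scoped ArithmeticFunction.omega Nat

lemma factorial_card_le (s : Finset ℕ) : (∀ a ∈ s, 1 ≤ a) → (#s)! ≤ ∏ a ∈ s, a := by
  induction' hc : #s with r ih generalizing s
  · intro _
    rw [Finset.card_eq_zero.1 hc]
    simp
  · intro hs
    have hne : s.Nonempty := by
      rw [← Finset.card_pos, hc]; omega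
    have hM : #s ≤ s.max' hne := by
      have : s ⊆ Finset.Icc 1 (s.max' hne) := by
        intro a ha
        exact Finset.mem_Icc.2 ⟨hs a ha, s.le_max' a ha⟩
      have h2 := Finset.card_le_card this
      simpa using h2
    have hmem := s.max'_mem hne
    have h3 : #(s.erase (s.max' hne)) = r := by
      rw [Finset.card_erase_of_mem hmem, hc]; rfl
    have h4 := ih (s.erase (s.max' hne)) h3 (fun a ha => hs a (Finset.mem_of_mem_erase ha))
    rw [← Finset.mul_prod_erase s _ hmem, Nat.factorial_succ]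
    exact Nat.mul_le_mul (by rw [hc] at hM; exact hM) h4

lemma omega_eq_card (m : ℕ) : ω m = #m.primeFactors := by
  rw [ArithmeticFunction.cardDistinctFactors_apply, Nat.primeFactors, List.card_toFinset]

lemma factorial_omega_le (m : ℕ) (hm : m ≠ 0) : (ω m)! ≤ m := by
  rw [omega_eq_card]
  refine (factorial_card_le _ fun a ha => (Nat.prime_of_mem_primeFactors ha).one_le).trans ?_
  exact Nat.le_of_dvd (Nat.pos_of_ne_zero hm) (Nat.prod_primeFactors_dvd m)

lemma two_pow_omega_le (m : ℕ) (hm : m ≠ 0) : 2 ^ (ω m) ≤ m := by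
  rw [omega_eq_card]
  refine le_trans ?_ (Nat.le_of_dvd (Nat.pos_of_ne_zero hm) (Nat.prod_primeFactors_dvd m))
  rw [← Finset.prod_const]
  exact Finset.prod_le_prod' fun a ha => (Nat.prime_of_mem_primeFactors ha).two_le

/-- `r log r - r <= log m` for `r` the number of distinct primes of `m`. -/
lemma omega_log_le (m : ℕ) (hm : m ≠ 0) :
    (ω m : ℝ) * log (ω m) - ω m ≤ log m := by
  rcases Nat.eq_zero_or_pos (ω m) with h | h
  · rw [h]
    simp only [Nat.cast_zero, Real.log_zero, mul_zero, sub_zero]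
    exact Real.log_natCast_nonneg m
  · have h0 : (0 : ℝ) < ω m := by exact_mod_cast h
    have h1 := Real.pow_div_factorial_le_exp (ω m : ℝ) h0.le (ω m)
    have hf : (0 : ℝ) < ((ω m)! : ℝ) := by exact_mod_cast Nat.factorial_pos _
    have h2 : ((ω m : ℕ) : ℝ) ^ (ω m) ≤ Real.exp (ω m) * ((ω m)! : ℝ) := by
      rwa [div_le_iff₀ hf] at h1
    have h3 := Real.log_le_log (by positivity) h2
    rw [Real.log_pow, Real.log_mul (Real.exp_ne_zero _) hf.ne', Real.log_exp] at h3
    have h4 : Real.log ((ω m)! : ℝ) ≤ log m := by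
      apply Real.log_le_log hf
      exact_mod_cast factorial_omega_le m hm
    linarith

lemma log_le_two_sqrt (x : ℝ) (hx : 0 < x) : log x ≤ 2 * √x := by
  have h := Real.log_le_sub_one_of_pos (Real.sqrt_pos.2 hx)
  have h2 : log x = 2 * log (√x) := by
    rw [Real.log_sqrt hx.le]; ring
  rw [h2]; linarith

/-- the terms of the family are bounded -/
lemma term_le (n k : ℕ) :
    (ω (n + k) : ℝ) * (log (log (k : ℝ)) / log (k : ℝ)) ≤ 8 * (1 + log (n + 1)) := by
  have hc : 0 ≤ log ((n : ℝ) + 1) := Real.log_nonneg (by linarith [Nat.cast_nonneg (α := ℝ) n])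
  rcases Nat.lt_or_ge k 3 with hk | hk
  · have h1 : log (log (k : ℝ)) / log (k : ℝ) ≤ 0 := by
      interval_cases k
      · simp
      · simp
      · have h2 : 0 < log ((2 : ℕ) : ℝ) := by
          push_cast; exact Real.log_pos (by norm_num)
        have h3 : log (log ((2 : ℕ) : ℝ)) ≤ 0 := by
          apply Real.log_nonpos h2.le
          push_cast
          linarith [Real.log_two_lt_d9]
        exact div_nonpos_of_nonpos_of_nonneg h3 h2.le
    have h2 : (ω (n + k) : ℝ) * (log (log (k : ℝ)) / log (k : ℝ)) ≤ 0 :=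
      mul_nonpos_of_nonneg_of_nonpos (Nat.cast_nonneg _) h1
    linarith
  · have hk3 : (3 : ℝ) ≤ k := by exact_mod_cast hk
    set L := log (k : ℝ) with hL
    have hL1 : 1 ≤ L := by
      rw [hL, Real.le_log_iff_exp_le (by linarith)]
      linarith [Real.exp_one_lt_d9]
    have hm0 : n + k ≠ 0 := by omega
    have hm : log ((n + k : ℕ) : ℝ) ≤ (1 + log ((n : ℝ) + 1)) * L := by
      have h1 : ((n + k : ℕ) : ℝ) ≤ ((n : ℝ) + 1) * k := by
        push_cast
        nlinarith [Nat.cast_nonneg (α := ℝ) n]
      have h2 := Real.log_le_log (by positivity) h1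
      rw [Real.log_mul (by positivity) (by positivity)] at h2
      nlinarith
    set c := 1 + log ((n : ℝ) + 1) with hcdef
    have hc1 : 1 ≤ c := by linarith
    set r := (ω (n + k) : ℝ) with hr
    have hr0 : 0 ≤ r := Nat.cast_nonneg _
    have h2r : r * log 2 ≤ c * L := by
      have h1 : ((2 : ℝ)) ^ (ω (n + k)) ≤ ((n + k : ℕ) : ℝ) := by
        exact_mod_cast two_pow_omega_le (n + k) hm0
      have h2 := Real.log_le_log (by positivity) h1
      rw [Real.log_pow] at h2
      linarith
    have hfac := omega_log_le (n + k) hm0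
    rw [← hr] at hfac
    have hL0 : 0 < L := by linarith
    rw [mul_div_assoc', div_le_iff₀ hL0]
    have hcL : 0 < c * L := by positivity
    rcases le_or_gt (log L) 4 with h4 | h4
    · have h5 : r * log L ≤ r * 4 := mul_le_mul_of_nonneg_left h4 hr0
      have h6 := Real.log_two_gt_d9
      nlinarith
    · rcases le_or_gt r (√L) with h5 | h5
      · have h6 := log_le_two_sqrt L hL0
        have h7 : r * log L ≤ √L * (2 * √L) :=
          mul_le_mul h5 h6 (by linarith) (Real.sqrt_nonneg _)
        have h8 : √L * √L = L := Real.mul_self_sqrt hL0.le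
        nlinarith
      · have hsq : 0 < √L := Real.sqrt_pos.2 hL0
        have h6 : log (√L) ≤ log r := Real.log_le_log hsq h5.le
        rw [Real.log_sqrt hL0.le] at h6
        have h7 : r * (log L / 2 - 1) ≤ c * L := by
          have : r * (log L / 2) ≤ r * log r := mul_le_mul_of_nonneg_left h6 hr0
          linarith
        nlinarith

lemma bddAbove_F (n : ℕ) :
    BddAbove (Set.range fun k : ℕ => (ω (n + k) : ℝ) * (log (log (k : ℝ)) / log (k : ℝ))) :=
  ⟨8 * (1 + log (n + 1)), by rintro _ ⟨k, rfl⟩; exact term_le n k⟩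

lemma le_F (n k : ℕ) : (ω (n + k) : ℝ) * (log (log (k : ℝ)) / log (k : ℝ)) ≤ F n :=
  le_ciSup (bddAbove_F n) k

end Pool.Agent.FOM
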