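import Pool.Agent.FOM.Base
import Pool.Agent.SST.SUnit

/-!
# FOM: `F n ≥ 1.584` for all large `n`
-/

set_option autoImplicit false

namespace Pool.Agent.FOM

open N4a4fba6b Real Finset
open scoped ArithmeticFunction.omega Nat

/-- the ratio `log log k / log k` from below on `[16, B]`, given `log B ≤ L0` -/
lemma ratio_ge (k : ℕ) (L0 : ℝ) (hk : 16 ≤ k) (hL : log (k : ℝ) ≤ L0) :
    log L0 / L0 ≤ log (log (k : ℝ)) / log (k : ℝ) := by
  have h16 : exp 1 ≤ log (k : ℝ) := by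
    have h1 : log (16 : ℝ) ≤ log (k : ℝ) := Real.log_le_log (by norm_num) (by exact_mod_cast hk)
    have h2 : log (16 : ℝ) = 4 * log 2 := by
      rw [show (16 : ℝ) = 2 ^ 4 by norm_num, Real.log_pow]; norm_num
    have h3 := Real.log_two_gt_d9
    have h4 := Real.exp_one_lt_d9
    linarith
  exact Real.log_div_self_antitoneOn h16 (le_trans h16 hL) hL

lemma exp_small_ge (x : ℝ) (hx : 0 ≤ x) :
    1 + x + x ^ 2 / 2 + x ^ 3 / 6 + x ^ 4 / 24 + x ^ 5 / 120 + x ^ 6 / 720 ≤ exp x := by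
  have h := Real.sum_le_exp_of_nonneg hx 7
  simp only [Finset.sum_range_succ, Finset.sum_range_zero, Nat.factorial] at h
  norm_num at h
  linarith

lemma log_30045_le : log (30045 : ℝ) ≤ 10.3105 := by
  rw [Real.log_le_iff_le_exp (by norm_num)]
  have h1 : exp (10.3105 : ℝ) = exp 1 ^ 10 * exp 0.3105 := by
    rw [← Real.exp_nat_mul, ← Real.exp_add]; norm_num
  have h2 := Real.exp_one_gt_d9
  have h3 := exp_small_ge 0.3105 (by norm_num)
  have h4 : (2.7182818283 : ℝ) ^ 10 ≤ exp 1 ^ 10 := pow_le_pow_left₀ (by norm_num) h2.le 10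
  rw [h1]
  calc (30045 : ℝ) ≤ (2.7182818283 : ℝ) ^ 10 * (1 + 0.3105 + 0.3105 ^ 2 / 2 + 0.3105 ^ 3 / 6 +
        0.3105 ^ 4 / 24 + 0.3105 ^ 5 / 120 + 0.3105 ^ 6 / 720) := by norm_num
    _ ≤ exp 1 ^ 10 * exp 0.3105 := mul_le_mul h4 h3 (by positivity) (by positivity)

lemma log_2325_le : log (2325 : ℝ) ≤ 7.7516 := by
  rw [Real.log_le_iff_le_exp (by norm_num)]
  have h1 : exp (7.7516 : ℝ) = exp 1 ^ 7 * exp 0.7516 := by
    rw [← Real.exp_nat_mul, ← Real.exp_add]; norm_num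
  have h2 := Real.exp_one_gt_d9
  have h3 := exp_small_ge 0.7516 (by norm_num)
  have h4 : (2.7182818283 : ℝ) ^ 7 ≤ exp 1 ^ 7 := pow_le_pow_left₀ (by norm_num) h2.le 7
  rw [h1]
  calc (2325 : ℝ) ≤ (2.7182818283 : ℝ) ^ 7 * (1 + 0.7516 + 0.7516 ^ 2 / 2 + 0.7516 ^ 3 / 6 +
        0.7516 ^ 4 / 24 + 0.7516 ^ 5 / 120 + 0.7516 ^ 6 / 720) := by norm_num
    _ ≤ exp 1 ^ 7 * exp 0.7516 := mul_le_mul h4 h3 (by positivity) (by positivity)

lemma exp_small_le (x : ℝ) (h0 : 0 ≤ x) (h1 : x ≤ 1) :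
    exp x ≤ 1 + x + x ^ 2 / 2 + x ^ 3 / 6 + x ^ 4 / 24 + x ^ 5 * (6 / (120 * 5)) := by
  have h := Real.exp_bound' h0 h1 (n := 5) (by norm_num)
  simp only [Finset.sum_range_succ, Finset.sum_range_zero, Nat.factorial] at h
  norm_num at h
  linarith

lemma num7 : (1.584 : ℝ) ≤ 7 * (log 10.3105 / 10.3105) := by
  have h : (2.33312 : ℝ) ≤ log 10.3105 := by
    rw [Real.le_log_iff_exp_le (by norm_num)]
    have h1 : exp (2.33312 : ℝ) = exp 1 ^ 2 * exp 0.33312 := by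
      rw [← Real.exp_nat_mul, ← Real.exp_add]; norm_num
    have h2 := Real.exp_one_lt_d9
    have h3 := exp_small_le 0.33312 (by norm_num) (by norm_num)
    have h4 : exp 1 ^ 2 ≤ (2.7182818286 : ℝ) ^ 2 := pow_le_pow_left₀ (Real.exp_pos _).le h2.le 2
    rw [h1]
    calc exp 1 ^ 2 * exp 0.33312 ≤ (2.7182818286 : ℝ) ^ 2 * (1 + 0.33312 + 0.33312 ^ 2 / 2 +
          0.33312 ^ 3 / 6 + 0.33312 ^ 4 / 24 + 0.33312 ^ 5 * (6 / (120 * 5))) :=
          mul_le_mul h4 h3 (Real.exp_pos _).le (by positivity)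
      _ ≤ 10.3105 := by norm_num
  rw [mul_div_assoc', le_div_iff₀ (by norm_num)]
  linarith

lemma num6 : (1.584 : ℝ) ≤ 6 * (log 7.7516 / 7.7516) := by
  have h : (2.0465 : ℝ) ≤ log 7.7516 := by
    rw [Real.le_log_iff_exp_le (by norm_num)]
    have h1 : exp (2.0465 : ℝ) = exp 1 ^ 2 * exp 0.0465 := by
      rw [← Real.exp_nat_mul, ← Real.exp_add]; norm_num
    have h2 := Real.exp_one_lt_d9
    have h3 := exp_small_le 0.0465 (by norm_num) (by norm_num)
    have h4 : exp 1 ^ 2 ≤ (2.7182818286 : ℝ) ^ 2 := pow_le_pow_left₀ (Real.exp_pos _).le h2.le 2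
    rw [h1]
    calc exp 1 ^ 2 * exp 0.0465 ≤ (2.7182818286 : ℝ) ^ 2 * (1 + 0.0465 + 0.0465 ^ 2 / 2 +
          0.0465 ^ 3 / 6 + 0.0465 ^ 4 / 24 + 0.0465 ^ 5 * (6 / (120 * 5))) :=
          mul_le_mul h4 h3 (Real.exp_pos _).le (by positivity)
      _ ≤ 7.7516 := by norm_num
  rw [mul_div_assoc', le_div_iff₀ (by norm_num)]
  linarith

/-- seven primes at `k ≤ 30045` -/
lemma F_ge7 (n k : ℕ) (hk : 16 ≤ k) (hk2 : k ≤ 30045) (hw : 7 ≤ ω (n + k)) :
    1.584 ≤ (ω (n + k) : ℝ) * (log (log (k : ℝ)) / log (k : ℝ)) := by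
  have h1 : log (k : ℝ) ≤ 10.3105 :=
    (Real.log_le_log (by positivity) (by exact_mod_cast hk2)).trans log_30045_le
  have h2 := ratio_ge k 10.3105 hk h1
  have h3 : (7 : ℝ) ≤ ω (n + k) := by exact_mod_cast hw
  have h4 : (0 : ℝ) < log 10.3105 / 10.3105 := by
    have := num7; linarith
  calc (1.584 : ℝ) ≤ 7 * (log 10.3105 / 10.3105) := num7
    _ ≤ (ω (n + k) : ℝ) * (log (log (k : ℝ)) / log (k : ℝ)) := mul_le_mul h3 h2 h4.le (by linarith)

/-- six primes at `k ≤ 2325` -/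
lemma F_ge6 (n k : ℕ) (hk : 16 ≤ k) (hk2 : k ≤ 2325) (hw : 6 ≤ ω (n + k)) :
    1.584 ≤ (ω (n + k) : ℝ) * (log (log (k : ℝ)) / log (k : ℝ)) := by
  have h1 : log (k : ℝ) ≤ 7.7516 :=
    (Real.log_le_log (by positivity) (by exact_mod_cast hk2)).trans log_2325_le
  have h2 := ratio_ge k 7.7516 hk h1
  have h3 : (6 : ℝ) ≤ ω (n + k) := by exact_mod_cast hw
  have h4 : (0 : ℝ) < log 7.7516 / 7.7516 := by
    have := num6; linarith
  calc (1.584 : ℝ) ≤ 6 * (log 7.7516 / 7.7516) := num6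
    _ ≤ (ω (n + k) : ℝ) * (log (log (k : ℝ)) / log (k : ℝ)) := mul_le_mul h3 h2 h4.le (by linarith)

lemma exists_mult (n M a : ℕ) (hM : 0 < M) : ∃ k, a ≤ k ∧ k < a + M ∧ M ∣ n + k := by
  refine ⟨a + (M - 1 - (n + a + (M - 1)) % M), by omega, by omega, ?_⟩
  have h1 : (n + a + (M - 1)) % M < M := Nat.mod_lt _ hM
  have h2 := Nat.div_add_mod (n + a + (M - 1)) M
  refine ⟨(n + a + (M - 1)) / M, ?_⟩
  omega

open Pool.Agent.SST in
lemma sunit_of_smooth (B u : ℕ) (hu : u ≠ 0) (h : ∀ q : ℕ, q.Prime → q ∣ u → q < B) :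
    SUnit (Finset.range B) (u : ℚ) := by
  refine ⟨by exact_mod_cast hu, fun q hq hqB => ?_⟩
  have := Fact.mk hq
  rw [padicNorm.nat_eq_one_iff]
  intro hd
  exact hqB (Finset.mem_range.2 (h q hq hd))

open Pool.Agent.SST in
lemma smooth_pair (B : ℕ) : ∃ N : ℕ, ∀ u v : ℕ, N ≤ u → N ≤ v → v < u → u < v + B →
    (∀ q : ℕ, q.Prime → q ∣ u → q < B) → (∀ q : ℕ, q.Prime → q ∣ v → q < B) → False := by
  obtain ⟨Fs, hF, hF'⟩ := sunit_finite (Fin 3) (Finset.range B)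
  obtain ⟨M, hM⟩ := hF.bddAbove
  obtain ⟨N, hN⟩ := exists_nat_gt (max M 0 * B)
  refine ⟨N + 1, fun u v hu hv huv huB hqu hqv => ?_⟩
  obtain ⟨d, rfl⟩ := Nat.exists_eq_add_of_lt huv
  have hd0 : d + 1 ≠ 0 := by omega
  have hdB : d + 1 < B := by omega
  have hsd : SUnit (Finset.range B) (((d + 1 : ℕ) : ℚ)) :=
    sunit_of_smooth B (d + 1) hd0 fun q hq hqd => lt_of_le_of_lt (Nat.le_of_dvd (by omega) hqd) hdB
  have hsu := sunit_of_smooth B (v + d + 1) (by omega) hqu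
  have hsv := sunit_of_smooth B v (by omega) hqv
  have hneg : ∀ x : ℚ, SUnit (Finset.range B) x → SUnit (Finset.range B) (-x) := by
    intro x hx
    exact ⟨neg_ne_zero.2 hx.1, fun q hq hqB => by rw [padicNorm.neg]; exact hx.2 q hq hqB⟩
  let x : Fin 3 → ℚ := ![((v + d + 1 : ℕ) : ℚ), -(v : ℚ), -((d + 1 : ℕ) : ℚ)]
  have hx : ∀ i, SUnit (Finset.range B) (x i) := by
    intro i
    fin_cases i
    · exact hsu
    · exact hneg _ hsv
    · exact hneg _ hsd
  have hv0 : (0 : ℚ) < v := by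
    have : 0 < v := by omega
    exact_mod_cast this
  have hdq : (0 : ℚ) < ((d + 1 : ℕ) : ℚ) := by
    have : 0 < d + 1 := by omega
    exact_mod_cast this
  have hsum : ∑ i, x i = 0 := by
    simp only [x, Fin.sum_univ_three, Matrix.cons_val_zero, Matrix.cons_val_one, Matrix.cons_val]
    push_cast
    ring
  have hnd : ∀ T : Finset (Fin 3), T.Nonempty → T ≠ Finset.univ → ∑ i ∈ T, x i ≠ 0 := by
    have h0 : x 0 = (v : ℚ) + ((d + 1 : ℕ) : ℚ) := by
      simp only [x, Matrix.cons_val_zero]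
      push_cast; ring
    have h1 : x 1 = -(v : ℚ) := rfl
    have h2 : x 2 = -((d + 1 : ℕ) : ℚ) := rfl
    intro T hT hTu
    have hs : ∑ i ∈ T, x i = (if (0 : Fin 3) ∈ T then x 0 else 0) +
        (if (1 : Fin 3) ∈ T then x 1 else 0) + (if (2 : Fin 3) ∈ T then x 2 else 0) := by
      rw [← Fin.sum_univ_three (fun i => if i ∈ T then x i else 0), Finset.sum_ite_mem,
        Finset.univ_inter]
    rw [hs, h0, h1, h2]
    by_cases a0 : (0 : Fin 3) ∈ T <;> by_cases a1 : (1 : Fin 3) ∈ T <;>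
      by_cases a2 : (2 : Fin 3) ∈ T <;> simp only [a0, a1, a2, if_true, if_false]
    · exfalso
      apply hTu
      rw [Finset.eq_univ_iff_forall]
      intro i
      fin_cases i
      · exact a0
      · exact a1
      · exact a2
    · intro hh; linarith
    · intro hh; linarith
    · intro hh; linarith
    · intro hh; linarith
    · intro hh; linarith
    · intro hh; linarith
    · exfalso
      obtain ⟨i, hi⟩ := hT
      fin_cases i
      · exact a0 hi
      · exact a1 hi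
      · exact a2 hi
  have h := hF' (fun i => - x i) (fun i => hneg _ (hx i))
    (by rw [Finset.sum_neg_distrib, hsum, neg_zero])
    (fun T hT hTu => by rw [Finset.sum_neg_distrib]; exact neg_ne_zero.2 (hnd T hT hTu)) 1 2
  have h2 : (v : ℚ) / ((d + 1 : ℕ) : ℚ) ≤ M := by
    have h3 := hM h
    have h4 : (fun i => - x i) 1 / (fun i => - x i) 2 = (v : ℚ) / ((d + 1 : ℕ) : ℚ) := by
      simp only [x, Matrix.cons_val_one, Matrix.cons_val, neg_neg]
    rwa [h4] at h3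
  rw [div_le_iff₀ hdq] at h2
  have h3 : ((d + 1 : ℕ) : ℚ) ≤ B := by exact_mod_cast hdB.le
  have h4 : (v : ℚ) ≤ max M 0 * B := by
    calc (v : ℚ) ≤ M * ((d + 1 : ℕ) : ℚ) := h2
      _ ≤ max M 0 * ((d + 1 : ℕ) : ℚ) := mul_le_mul_of_nonneg_right (le_max_left _ _) hdq.le
      _ ≤ max M 0 * B := mul_le_mul_of_nonneg_left h3 (le_max_right _ _)
  have h5 : (N : ℚ) + 1 ≤ v := by exact_mod_cast hv
  linarith

/-- a finite set of primes dividing `m` bounds `ω m` from below -/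
lemma card_le_omega (m : ℕ) (hm : m ≠ 0) (s : Finset ℕ) (hs : ∀ p ∈ s, p.Prime ∧ p ∣ m) :
    #s ≤ ω m := by
  rw [omega_eq_card]
  exact Finset.card_le_card fun p hp => Nat.mem_primeFactors.2 ⟨(hs p hp).1, (hs p hp).2, hm⟩

/-- For all large `n` some `k` with `16 ≤ k ≤ 30045` has `ω(n+k) log log k / log k ≥ 1.584`. -/
theorem low : ∃ N : ℕ, ∀ n : ℕ, N ≤ n → ∃ k : ℕ, 16 ≤ k ∧ k ≤ 30045 ∧
    1.584 ≤ (ω (n + k) : ℝ) * (log (log (k : ℝ)) / log (k : ℝ)) := by
  obtain ⟨N, hN⟩ := smooth_pair 30046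
  refine ⟨N, fun n hn => ?_⟩
  obtain ⟨k, hk1, hk2, hk⟩ := exists_mult n 30030 16 (by norm_num)
  obtain ⟨l, hl1, hl2, hl⟩ := exists_mult n 2310 16 (by norm_num)
  have hk0 : n + k ≠ 0 := by omega
  have hl0 : n + l ≠ 0 := by omega
  have dk : ∀ p ∈ ({2, 3, 5, 7, 11, 13} : Finset ℕ), p.Prime ∧ p ∣ n + k := by
    intro p hp
    simp only [Finset.mem_insert, Finset.mem_singleton] at hp
    rcases hp with rfl | rfl | rfl | rfl | rfl | rfl <;>
      exact ⟨by norm_num, dvd_trans (by norm_num) hk⟩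
  have dl : ∀ p ∈ ({2, 3, 5, 7, 11} : Finset ℕ), p.Prime ∧ p ∣ n + l := by
    intro p hp
    simp only [Finset.mem_insert, Finset.mem_singleton] at hp
    rcases hp with rfl | rfl | rfl | rfl | rfl <;>
      exact ⟨by norm_num, dvd_trans (by norm_num) hl⟩
  by_cases hA : ∃ q : ℕ, q.Prime ∧ q ∣ n + k ∧ q ∉ ({2, 3, 5, 7, 11, 13} : Finset ℕ)
  · obtain ⟨q, hq, hqk, hq13⟩ := hA
    refine ⟨k, hk1, by omega, F_ge7 n k hk1 (by omega) ?_⟩
    have := card_le_omega (n + k) hk0 (insert q {2, 3, 5, 7, 11, 13}) (by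
      intro p hp
      rcases Finset.mem_insert.1 hp with rfl | hp
      · exact ⟨hq, hqk⟩
      · exact dk p hp)
    rwa [Finset.card_insert_of_notMem hq13] at this
  · push Not at hA
    have hsm : ∀ q : ℕ, q.Prime → q ∣ n + k → q < 30046 := by
      intro q hq hqk
      have := hA q hq hqk
      simp only [Finset.mem_insert, Finset.mem_singleton] at this
      omega
    by_cases hkl : k = l
    · subst hkl
      exact ⟨k, hk1, by omega, F_ge6 n k hk1 (by omega) (card_le_omega (n + k) hk0 _ dk)⟩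
    · have hnl : ¬ ∀ q : ℕ, q.Prime → q ∣ n + l → q < 30046 := by
        intro hl'
        rcases Nat.lt_or_ge l k with h | h
        · exact hN (n + k) (n + l) (by omega) (by omega) (by omega) (by omega) hsm hl'
        · exact hN (n + l) (n + k) (by omega) (by omega) (by omega) (by omega) hl' hsm
      push Not at hnl
      obtain ⟨q, hq, hql, hqB⟩ := hnl
      refine ⟨l, hl1, by omega, F_ge6 n l hl1 (by omega) ?_⟩
      have hq11 : q ∉ ({2, 3, 5, 7, 11} : Finset ℕ) := by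
        simp only [Finset.mem_insert, Finset.mem_singleton]
        omega
      have := card_le_omega (n + l) hl0 (insert q {2, 3, 5, 7, 11}) (by
        intro p hp
        rcases Finset.mem_insert.1 hp with rfl | hp
        · exact ⟨hq, hql⟩
        · exact dl p hp)
      rwa [Finset.card_insert_of_notMem hq11] at this

end Pool.Agent.FOM
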